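import Pool.Agent.Lib.MP_bd1451_an_own.Core

/-!
# MP_bd1451_an, Q1: negative answer, for every symmetry constant

For all constants `C` and `lam` there are arbitrarily large `n` and norms on `ℝ^n` (given by
`n`-dimensional subspaces of `ℓ₁^N`, `N ≤ 2n`, isomorphic to the Euclidean norm with a constant `K`
depending only on `C` and `lam`) for which no subspace of dimension at least `k₀(C, lam)` both has a
`lam`-symmetric basis and is the range of a projection of norm at most `C`.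
-/

set_option autoImplicit false
open Filter Topology

namespace Pool.Agent.Results.MP_bd1451_an.AllSymmetryConstants

/-- `p` is a norm on `ℝ^n` -/
structure IsNorm {n : ℕ} (p : (Fin n → ℝ) → ℝ) : Prop where
  add_le : ∀ x y, p (x + y) ≤ p x + p y
  smul_eq : ∀ (c : ℝ) x, p (c • x) = |c| * p x
  pos : ∀ x, x ≠ 0 → 0 < p x

/-- the basis `b` of the subspace `E` of `(ℝ^n, p)` is `lam`-symmetric -/
def IsSymmetricBasis {n k : ℕ} (p : (Fin n → ℝ) → ℝ) (lam : ℝ) {E : Submodule ℝ (Fin n → ℝ)}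
    (b : Module.Basis (Fin k) ℝ E) : Prop :=
  ∀ (π : Equiv.Perm (Fin k)) (ε : Fin k → ℝ), (∀ i, ε i = 1 ∨ ε i = -1) → ∀ a : Fin k → ℝ,
    p (∑ i, (ε i * a i) • (b (π i) : Fin n → ℝ)) ≤ lam * p (∑ i, a i • (b i : Fin n → ℝ))

/-- `P` is a projection of `ℝ^n` onto `E` with norm at most `C` with respect to `p` -/
def IsProjectionOnto {n : ℕ} (p : (Fin n → ℝ) → ℝ) (C : ℝ) (E : Submodule ℝ (Fin n → ℝ))
    (P : (Fin n → ℝ) →ₗ[ℝ] (Fin n → ℝ)) : Prop :=
  (∀ x, P x ∈ E) ∧ (∀ x ∈ E, P x = x) ∧ ∀ x, p (P x) ≤ C * p x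

/-- The question, with symmetry constant `lam`: there are `C` and `k(n) → ∞` such that for every
`n` and every norm on `ℝ^n` there is a subspace of dimension `k(n)` which has a `lam`-symmetric
basis and onto which there is a projection of norm at most `C`. -/
def Question (lam : ℝ) : Prop :=
  ∃ C : ℝ, ∃ k : ℕ → ℕ, Tendsto k atTop atTop ∧ ∀ n : ℕ, ∀ p : (Fin n → ℝ) → ℝ, IsNorm p →
    ∃ E : Submodule ℝ (Fin n → ℝ), ∃ b : Module.Basis (Fin (k n)) ℝ E, ∃ P,
      IsSymmetricBasis p lam b ∧ IsProjectionOnto p C E P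

/-- `p` is the norm induced on `ℝ^n` by the linear map `T` into `ℓ₁^N` -/
noncomputable def normOf {n N : ℕ} (T : (Fin n → ℝ) →ₗ[ℝ] (Fin N → ℝ)) (x : Fin n → ℝ) : ℝ :=
  ∑ ω, |T x ω|

open Pool.Agent.Lib.MP_bd1451_an in
theorem main (C lam : ℝ) : ∃ (K : ℝ) (k₀ : ℕ), ∀ n₀ : ℕ, ∃ (n N : ℕ), n₀ ≤ n ∧ N ≤ 2 * n ∧
    ∃ T : (Fin n → ℝ) →ₗ[ℝ] (Fin N → ℝ), IsNorm (normOf T) ∧
      (∀ x, Real.sqrt N * Real.sqrt (∑ ω, T x ω ^ 2) ≤ K * normOf T x) ∧
      ∀ (k : ℕ) (E : Submodule ℝ (Fin n → ℝ)) (b : Module.Basis (Fin k) ℝ E) (P : _),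
        k₀ ≤ k → IsSymmetricBasis (normOf T) lam b → ¬ IsProjectionOnto (normOf T) C E P := by
  obtain ⟨K, k₀, h⟩ := L.core (max lam 2) (max C 1) (le_max_right _ _) (le_max_right _ _)
  refine ⟨K, k₀, fun n₀ => ?_⟩
  obtain ⟨N, d, B, h1, h2, h3, h4⟩ := h n₀
  let φ : XB B ≃ₗ[ℝ] (Fin (Module.finrank ℝ (XB B)) → ℝ) := (Module.finBasis ℝ (XB B)).equivFun
  let T : (Fin (Module.finrank ℝ (XB B)) → ℝ) →ₗ[ℝ] (Fin N → ℝ) :=
    (WithLp.linearEquiv 1 ℝ (Fin N → ℝ)).toLinearMap ∘ₗ (XB B).subtype ∘ₗ φ.symm.toLinearMap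
  have hT : ∀ x ω, T x ω = (φ.symm x : PiLp 1 (fun _ : Fin N => ℝ)) ω := fun x ω => rfl
  have hn : ∀ x, normOf T x = ‖φ.symm x‖ := by
    intro x
    rw [norm_XB]
    rfl
  have hnorm : IsNorm (normOf T) := by
    refine ⟨fun x y => ?_, fun c x => ?_, fun x hx => ?_⟩
    · rw [hn, hn, hn, map_add]; exact norm_add_le _ _
    · rw [hn, hn, map_smul, norm_smul, Real.norm_eq_abs]
    · rw [hn, norm_pos_iff]
      intro h0
      exact hx (by simpa using h0)
  refine ⟨_, N, h1, h2, T, hnorm, ?_, ?_⟩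
  · intro x
    exact h3 (T x) (φ.symm x).2
  · intro k E b P hk hb hP
    obtain ⟨hP1, hP2, hP3⟩ := hP
    let e : Fin k → XB B := fun i => φ.symm (b i : Fin _ → ℝ)
    have hspan : ∀ y : XB B, φ y ∈ E → y ∈ Submodule.span ℝ (Set.range e) := by
      intro y hy
      have h5 := b.sum_repr ⟨φ y, hy⟩
      have h6 : φ y = ∑ i, (b.repr ⟨φ y, hy⟩ i) • (b i : Fin _ → ℝ) := by
        have h8 := congrArg E.subtype h5
        rw [map_sum] at h8
        simp only [map_smul, Submodule.subtype_apply] at h8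
        exact h8.symm
      have h7 : y = ∑ i, (b.repr ⟨φ y, hy⟩ i) • e i := by
        have := congrArg φ.symm h6
        rw [LinearEquiv.symm_apply_apply, map_sum] at this
        exact this.trans (Finset.sum_congr rfl fun i _ => by rw [map_smul])
      rw [h7]
      exact Submodule.sum_mem _ fun i _ => Submodule.smul_mem _ _ (Submodule.subset_span ⟨i, rfl⟩)
    have hmem : ∀ y ∈ Submodule.span ℝ (Set.range e), φ y ∈ E := by
      intro y hy
      have : Submodule.span ℝ (Set.range e) ≤ E.comap φ.toLinearMap := by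
        rw [Submodule.span_le]
        rintro _ ⟨i, rfl⟩
        simp [e]
      exact this hy
    have hli : LinearIndependent ℝ e := by
      have h5 : LinearIndependent ℝ (fun i => (b i : Fin (Module.finrank ℝ (XB B)) → ℝ)) :=
        b.linearIndependent.map' E.subtype (Submodule.ker_subtype E)
      exact h5.map' φ.symm.toLinearMap (LinearEquiv.ker φ.symm)
    let P' : XB B →L[ℝ] XB B := LinearMap.toContinuousLinearMap (φ.symm.toLinearMap ∘ₗ P ∘ₗ φ.toLinearMap)
    have hP' : ∀ x, P' x = φ.symm (P (φ x)) := fun x => rfl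
    refine h4 k hk e hli ⟨P', ?_, ?_, ?_⟩ ?_
    · intro x
      apply hspan
      rw [hP', LinearEquiv.apply_symm_apply]
      exact hP1 _
    · intro y hy
      rw [hP', hP2 _ (hmem y hy), LinearEquiv.symm_apply_apply]
    · refine ContinuousLinearMap.opNorm_le_bound _ (le_trans zero_le_one (le_max_right _ _)) ?_
      intro x
      have h5 := hP3 (φ x)
      rw [hn, hn, LinearEquiv.symm_apply_apply] at h5
      rw [hP']
      exact h5.trans (mul_le_mul_of_nonneg_right (le_max_left _ _) (norm_nonneg _))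
    · intro σ ε hε a
      have h5 := hb σ ε hε a
      rw [hn, hn, map_sum, map_sum] at h5
      simp only [map_smul] at h5
      exact h5.trans (mul_le_mul_of_nonneg_right (le_max_left _ _) (norm_nonneg _))

/-- **Theorem.** (1) For all real `C`, `lam` there are `K` and `k₀` such that for arbitrarily large
`n` there is a norm on `ℝ^n`, induced from `ℓ₁^N` with `N ≤ 2n` and `K`-equivalent to a Euclidean norm,
for which no subspace of dimension at least `k₀` with a `lam`-symmetric basis is the range of a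
projection of norm at most `C`. (2) The answer to the question is negative, for `lam = 2` and for every
other symmetry constant `lam`. -/
theorem result :
    (∀ C lam : ℝ, ∃ (K : ℝ) (k₀ : ℕ), ∀ n₀ : ℕ, ∃ (n N : ℕ), n₀ ≤ n ∧ N ≤ 2 * n ∧
      ∃ T : (Fin n → ℝ) →ₗ[ℝ] (Fin N → ℝ), IsNorm (normOf T) ∧
        (∀ x, Real.sqrt N * Real.sqrt (∑ ω, T x ω ^ 2) ≤ K * normOf T x) ∧
        ∀ (k : ℕ) (E : Submodule ℝ (Fin n → ℝ)) (b : Module.Basis (Fin k) ℝ E)
          (P : (Fin n → ℝ) →ₗ[ℝ] (Fin n → ℝ)),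
          k₀ ≤ k → IsSymmetricBasis (normOf T) lam b → ¬ IsProjectionOnto (normOf T) C E P) ∧
    (∀ lam : ℝ, ¬ Question lam) := by
  refine ⟨main, fun lam => ?_⟩
  rintro ⟨C, k, hk, H⟩
  obtain ⟨K, k₀, h⟩ := main C lam
  obtain ⟨n₀, hn₀⟩ := Filter.eventually_atTop.1 (hk.eventually (eventually_ge_atTop k₀))
  obtain ⟨n, N, h1, h2, T, h3, h4, h5⟩ := h n₀
  obtain ⟨E, b, P, hb, hP⟩ := H n _ h3
  exact h5 _ E b P (hn₀ _ h1) hb hP

end Pool.Agent.Results.MP_bd1451_an.AllSymmetryConstants
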